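import Pool.Agent.Lib.MP_305fdd_al.Fr.V.Stm

/-!
# MP_305fdd_al, closed surface groups: the universal property for linear groups of degree `N`

`Lin N Q`: the group `Q` embeds into `GL (Fin N) R`, `R` a commutative ring (of any characteristic).
`GG.UPN N S`, `IsAmN N`, `IsHnN N`, `OutN N`: the same as `GG.UP`, `IsAm`, `IsHn`, `Out` for all targets
`Q` with `Lin N Q`.  For `2 ≤ N` they imply the properties for `SL(2, R)`.
-/

set_option autoImplicit false

namespace Pool.Agent.SuUN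

open Pool.Agent.FrS Pool.Agent.FrN Matrix

/-- `Q` embeds into `GL (Fin N) R` for a commutative ring `R`. -/
def Lin (N : ℕ) (Q : Type) [Group Q] : Prop :=
  ∃ (R : Type) (_ : CommRing R) (i : Q →* GL (Fin N) R), Function.Injective i

theorem Lin.of_inj {N : ℕ} {Q Q' : Type} [Group Q] [Group Q'] (h : Lin N Q) (j : Q' →* Q)
    (hj : Function.Injective j) : Lin N Q' := by
  obtain ⟨R, hR, i, hi⟩ := h
  exact ⟨R, hR, i.comp j, hi.comp hj⟩

theorem Lin.sub {N : ℕ} {Q : Type} [Group Q] (h : Lin N Q) (H : Subgroup Q) : Lin N H :=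
  h.of_inj H.subtype H.subtype_injective

/-- a faithful multiplicative map to invertible matrices over a finite type with `N` elements -/
theorem lin_of {N : ℕ} {m : Type} [Fintype m] [DecidableEq m] (hm : Fintype.card m = N)
    {Q R : Type} [Group Q] [CommRing R] (i : Q →* Matrix m m R) (hi : Function.Injective i) :
    Lin N Q := by
  let e : m ≃ Fin N := Fintype.equivFinOfCardEq hm
  let e' : Matrix m m R ≃ₐ[R] Matrix (Fin N) (Fin N) R := Matrix.reindexAlgEquiv R R e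
  refine ⟨R, inferInstance, (Units.map (e' : Matrix m m R →* Matrix (Fin N) (Fin N) R)).comp
    i.toHomUnits, ?_⟩
  intro x y h
  apply hi
  have h1 := congrArg Units.val h
  exact e'.injective h1

/-- products -/
theorem Lin.prod {N : ℕ} {Q Q' : Type} [Group Q] [Group Q'] (h : Lin N Q) (h' : Lin N Q') :
    Lin N (Q × Q') := by
  obtain ⟨R, _, i, hi⟩ := h
  obtain ⟨R', _, i', hi'⟩ := h'
  let f : Q × Q' →* Matrix (Fin N) (Fin N) (R × R') :=
    { toFun := fun x => Matrix.of fun a b => ((i x.1).1 a b, (i' x.2).1 a b)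
      map_one' := by
        ext a b
        · by_cases hab : a = b
          · subst hab
            simp
          · simp [hab]
        · by_cases hab : a = b
          · subst hab
            simp
          · simp [hab]
      map_mul' := by
        intro x y
        ext a b
        · simp only [Prod.fst_mul, map_mul, Units.val_mul, Matrix.mul_apply, Matrix.of_apply,
            Prod.snd_mul, Prod.fst_sum, Prod.mk_mul_mk]
        · simp only [Prod.fst_mul, map_mul, Units.val_mul, Matrix.mul_apply, Matrix.of_apply,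
            Prod.snd_mul, Prod.snd_sum, Prod.mk_mul_mk] }
  refine lin_of (m := Fin N) (by simp) f ?_
  intro x y h
  have h1 : ∀ a b, ((i x.1).1 a b, (i' x.2).1 a b) = ((i y.1).1 a b, (i' y.2).1 a b) :=
    fun a b => congrFun (congrFun h a) b
  refine Prod.ext (hi (Units.ext ?_)) (hi' (Units.ext ?_))
  · ext a b
    exact congrArg Prod.fst (h1 a b)
  · ext a b
    exact congrArg Prod.snd (h1 a b)

/-- block matrices -/
theorem Lin.mono {N N' : ℕ} (hN : N ≤ N') {Q : Type} [Group Q] (h : Lin N Q) : Lin N' Q := by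
  obtain ⟨R, _, i, hi⟩ := h
  let f : Q →* Matrix (Fin N ⊕ Fin (N' - N)) (Fin N ⊕ Fin (N' - N)) R :=
    { toFun := fun x => Matrix.fromBlocks (i x).1 0 0 1
      map_one' := by
        rw [map_one, Units.val_one, Matrix.fromBlocks_one]
      map_mul' := by
        intro x y
        rw [Matrix.fromBlocks_multiply, map_mul, Units.val_mul]
        simp }
  refine lin_of (m := Fin N ⊕ Fin (N' - N)) (by simp; omega) f ?_
  intro x y h
  apply hi
  apply Units.ext
  have h1 := congrArg Matrix.toBlocks₁₁ h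
  have h2 : ∀ x, (f x).toBlocks₁₁ = (i x).1 := fun x => Matrix.toBlocks_fromBlocks₁₁ _ _ _ _
  rw [h2, h2] at h1
  exact h1

/-- `SL(2, R)` is a target for `2 ≤ N` -/
theorem lin_SL {N : ℕ} (hN : 2 ≤ N) (R : Type) [CommRing R] :
    Lin N (SpecialLinearGroup (Fin 2) R) := by
  refine Lin.mono hN (lin_of (m := Fin 2) (by simp)
    { toFun := fun x : SpecialLinearGroup (Fin 2) R => x.1
      map_one' := rfl
      map_mul' := fun _ _ => rfl } ?_)
  intro x y h
  exact Subtype.ext h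

/-! ## Universal properties -/

variable {Γ : Type} [Group Γ]

end Pool.Agent.SuUN

namespace Pool.Agent.FrS.GG

open Pool.Agent.SuUN

variable {Γ : Type} [Group Γ]

/-- THE UNIVERSAL PROPERTY for linear groups of degree `N`. -/
structure UPN (N : ℕ) (S : GG Γ) : Prop where
  /-- every element of `Γ` is the product along a path, whatever the ends are -/
  gen : ∀ (u v : S.V) (g : Γ), S.Pth u v g
  /-- every family with values in a linear group of degree `N` comes from a representation of `Γ` -/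
  ext : ∀ (Q : Type) [Group Q], Lin N Q → ∀ F : Fam S Q,
    ∃ (r : Γ →* Q) (g : S.V → Q), F.IsOf r g

theorem UPN.up {N : ℕ} (hN : 2 ≤ N) {S : GG Γ} (h : S.UPN N) : S.UP where
  gen := h.gen
  ext R _ _ F := h.ext _ (lin_SL hN R) F

theorem UPN.mono {N N' : ℕ} (hN : N ≤ N') {S : GG Γ} (h : S.UPN N') : S.UPN N where
  gen := h.gen
  ext Q _ hQ F := h.ext Q (hQ.mono hN) F

end Pool.Agent.FrS.GG

namespace Pool.Agent.SuUN

open Pool.Agent.FrS Pool.Agent.FrN Pool.Agent.FrV Matrix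

variable {Γ : Type} [Group Γ]

/-- `P` is an amalgam of `A` and `A'` over `D`, as far as homomorphisms to linear groups of degree `N`
are concerned. -/
structure IsAmN (N : ℕ) (P A A' D : Subgroup Γ) : Prop where
  sup : P = A ⊔ A'
  le : D ≤ A
  le' : D ≤ A'
  ext : ∀ (Q : Type) [Group Q], Lin N Q → ∀ r r' : Γ → Q,
    MulOn A r → MulOn A' r' → (∀ d ∈ D, r d = r' d) →
    ∃ q : Γ → Q, MulOn P q ∧ (∀ x ∈ A, q x = r x) ∧ ∀ x ∈ A', q x = r' x

/-- `P` is an HNN extension of `A` with stable letter `s` and edge group `D ≤ A`, `s⁻¹ D s ≤ A`, as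
far as homomorphisms to linear groups of degree `N` are concerned. -/
structure IsHnN (N : ℕ) (P A D : Subgroup Γ) (s : Γ) : Prop where
  sup : P = A ⊔ Subgroup.zpowers s
  le : D ≤ A
  le' : ∀ d ∈ D, s⁻¹ * d * s ∈ A
  ext : ∀ (Q : Type) [Group Q], Lin N Q → ∀ (r : Γ → Q) (t : Q), MulOn A r →
    (∀ d ∈ D, r d = t * r (s⁻¹ * d * s) * t⁻¹) →
    ∃ q : Γ → Q, MulOn P q ∧ (∀ x ∈ A, q x = r x) ∧ q s = t

theorem IsAmN.am {N : ℕ} (hN : 2 ≤ N) {P A A' D : Subgroup Γ} (h : IsAmN N P A A' D) :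
    IsAm P A A' D where
  sup := h.sup
  le := h.le
  le' := h.le'
  ext R _ _ r r' := h.ext _ (lin_SL hN R) r r'

theorem IsHnN.hn {N : ℕ} (hN : 2 ≤ N) {P A D : Subgroup Γ} {s : Γ} (h : IsHnN N P A D s) :
    IsHn P A D s where
  sup := h.sup
  le := h.le
  le' := h.le'
  ext R _ _ r t := h.ext _ (lin_SL hN R) r t

theorem IsAmN.mono {N N' : ℕ} (hN : N ≤ N') {P A A' D : Subgroup Γ} (h : IsAmN N' P A A' D) :
    IsAmN N P A A' D where
  sup := h.sup
  le := h.le
  le' := h.le'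
  ext Q _ hQ r r' := h.ext Q (hQ.mono hN) r r'

theorem IsHnN.mono {N N' : ℕ} (hN : N ≤ N') {P A D : Subgroup Γ} {s : Γ} (h : IsHnN N' P A D s) :
    IsHnN N P A D s where
  sup := h.sup
  le := h.le
  le' := h.le'
  ext Q _ hQ r t := h.ext Q (hQ.mono hN) r t

/-- `P` splits relative to the subgroups `I i` (see `FrV.Out`). -/
def OutN {F ι : Type} [Field F] [Algebra (ZMod 2) F] (N : ℕ)
    (ρ : Γ →* SpecialLinearGroup (Fin 2) F) (P : Subgroup Γ) (I : ι → Subgroup Γ) : Prop :=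
  (∃ A A' D : Subgroup Γ, IsAmN N P A A' D ∧ A.FG ∧ A'.FG ∧ D.FG ∧ Cm D ∧ A ≠ D ∧ A' ≠ D ∧
    (∀ i, ∃ g ∈ P, (∀ c ∈ I i, g⁻¹ * c * g ∈ A) ∨ (∀ c ∈ I i, g⁻¹ * c * g ∈ A')) ∧
    (D ≠ ⊥ → Cm A → ∃ b ∈ A,
      ¬ IsAlgebraic (Algebra.adjoin (ZMod 2) (trs ρ {c | ∃ i, c ∈ I i})) (tr ρ b)) ∧
    (D ≠ ⊥ → Cm A' → ∃ b ∈ A',
      ¬ IsAlgebraic (Algebra.adjoin (ZMod 2) (trs ρ {c | ∃ i, c ∈ I i})) (tr ρ b))) ∨
  (∃ (A D : Subgroup Γ) (s : Γ), IsHnN N P A D s ∧ A.FG ∧ D.FG ∧ Cm D ∧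
    ∀ i, ∃ g ∈ P, ∀ c ∈ I i, g⁻¹ * c * g ∈ A)

theorem OutN.out {F ι : Type} [Field F] [Algebra (ZMod 2) F] {N : ℕ} (hN : 2 ≤ N)
    {ρ : Γ →* SpecialLinearGroup (Fin 2) F} {P : Subgroup Γ} {I : ι → Subgroup Γ}
    (h : OutN N ρ P I) : Out ρ P I := by
  rcases h with ⟨A, A', D, h, h1⟩ | ⟨A, D, s, h, h1⟩
  · exact Or.inl ⟨A, A', D, h.am hN, h1⟩
  · exact Or.inr ⟨A, D, s, h.hn hN, h1⟩

end Pool.Agent.SuUN

namespace Pool.Agent.SuUN

open Pool.Agent.FrN Pool.Agent.F2Ch Pool.Agent.FrS Pool.Agent.FrV Matrix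

/-- THEOREM R FOR A VERTEX GROUP with the universal properties for linear groups of degree `N`. -/
def S_VN (N : ℕ) : Prop :=
  ∀ (Γ K F ι : Type) [Group Γ] [Field K] [Field F] [Algebra (ZMod 2) K] [Algebra (ZMod 2) F]
    [Algebra K F] [Finite ι] (T : Γ → K) (ρ : Γ →* SpecialLinearGroup (Fin 2) F)
    (P : Subgroup Γ) (I : ι → Subgroup Γ) (x : K → ℝ),
    (∀ g ∈ P, (ρ g).1.trace = algebraMap K F (T g)) → (∀ g ∈ P, T g = 0 → g = 1) →
    P.FG → ¬ Cm P → (∀ i, I i ≤ P) → (∀ i, (I i).FG) → (∀ i, Cm (I i)) →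
    IsV x → (∀ b ∈ Algebra.adjoin (ZMod 2) (T '' P), b ≠ 0 → x b ≤ 0) →
    (∃ b ∈ Algebra.adjoin (ZMod 2) (T '' P), x b ≠ 0) → (∀ i, ∀ c ∈ I i, 0 ≤ x (T c)) →
    OutN N ρ P I

end Pool.Agent.SuUN
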