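import Pool.Agent.Lib.MP_305fdd_al.Fr.S.Up
import Pool.Agent.Lib.MP_305fdd_al.Su.UN.Defs

/-!
# MP_305fdd_al, closed surface groups: the refinements preserve the universal property of degree `N`
-/

set_option autoImplicit false

namespace Pool.Agent.FrS.GG

open Pool.Agent.SuUN

variable {Γ : Type} [Group Γ] {S : GG Γ}

/-- the trivial splitting -/
theorem one_upN (N : ℕ) (Γ : Type) [Group Γ] : (one Γ).UPN N where
  gen := (one_up Γ).gen
  ext Q _ _ F := by
    refine ⟨⟨⟨F.r (), ?_⟩, ?_⟩, fun _ => 1, ?_, fun e => e.elim⟩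
    · have h := F.mul () 1 (Subgroup.mem_top _) 1 (Subgroup.mem_top _)
      rw [one_mul] at h
      exact left_eq_mul.1 h
    · exact fun x y => F.mul () x (Subgroup.mem_top _) y (Subgroup.mem_top _)
    · intro v x _
      cases v
      simp

/-- THEOREM: the refinement by an amalgam preserves the universal property of degree `N`. -/
theorem refA_upN {N : ℕ} (hN : 2 ≤ N) (hS : S.UPN N) {v : S.V} (d : S.RefA v)
    (am : IsAmN N (S.G v) d.A d.A' d.D) : (S.refA v d).UPN N := by
  refine ⟨refA_gen (hS.up hN) d, ?_⟩
  intro Q _ hQ F'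
  set τ := F'.t none with hτ
  have hGs : ∀ w, (S.refA v d).G (some w) = if w = v then d.A else S.G w := fun w => rfl
  have hA : MulOn d.A (F'.r (some v)) := by
    have h := F'.mulOn (some v)
    rw [hGs, if_pos rfl] at h
    exact h
  have hA' : MulOn d.A' (fun x => τ * F'.r none x * τ⁻¹) := by
    intro x hx y hy
    have h := F'.mul none x hx y hy
    simp only [h]
    group
  have hD : ∀ x ∈ d.D, F'.r (some v) x = τ * F'.r none x * τ⁻¹ := by
    intro x hx
    have h := F'.cm none x hx
    have h1 : ((S.refA v d).s none)⁻¹ * x * (S.refA v d).s none = x := by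
      change (1 : Γ)⁻¹ * x * 1 = x
      group
    rw [h1] at h
    exact h
  obtain ⟨q, hq, hqA, hqA'⟩ := am.ext Q hQ _ _ hA hA' hD
  have hAv : d.A ≤ S.G v := by rw [d.am.sup]; exact le_sup_left
  have hA'v : d.A' ≤ S.G v := by rw [d.am.sup]; exact le_sup_right
  let fr : S.V → Γ → Q := fun w => if w = v then q else F'.r (some w)
  have hfr : ∀ w, MulOn (S.G w) (fr w) := by
    intro w
    by_cases hw : w = v
    · subst hw
      simp only [fr, if_true]
      exact hq
    · have h := F'.mulOn (some w)
      rw [hGs, if_neg hw] at h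
      simp only [fr, hw, if_false]
      exact h
  -- one end of an edge
  have hend : ∀ (w : S.V) (p : Bool) (k : Γ), k ∈ S.G v → (w ≠ v → k = 1) →
      ∃ α : Q,
        (∀ x ∈ S.G w, (w = v → k⁻¹ * x * k ∈ (if p then d.A' else d.A)) →
          F'.r (if w = v ∧ p = true then none else some w) (k⁻¹ * x * k) = α⁻¹ * fr w x * α) ∧
        ∀ (r : Γ →* Q) (g : S.V → Q),
          (∀ w, ∀ x ∈ S.G w, fr w x = (g w)⁻¹ * r x * g w) →
          (if w = v ∧ p = true then none else some w).elim (g v * τ) g = (r k)⁻¹ * g w * α := by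
    intro w p k hk hk1
    by_cases hw : w = v
    · subst hw
      by_cases hp : p = true
      · subst hp
        refine ⟨q k * τ, ?_, ?_⟩
        · intro x hx hx'
          have h1 := hx' rfl
          simp only [if_true] at h1
          have h2 := hqA' _ h1
          simp only [and_self, if_true, fr]
          rw [hq.conj hx hk] at h2
          have h3 : F'.r none (k⁻¹ * x * k) = τ⁻¹ * (τ * F'.r none (k⁻¹ * x * k) * τ⁻¹) * τ := by
            group
          rw [h3, ← h2]
          group
        · intro r g hg
          have h1 := hg w k hk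
          simp only [fr, if_true] at h1
          simp only [and_self, if_true, Option.elim_none]
          rw [h1]
          group
      · refine ⟨q k, ?_, ?_⟩
        · intro x hx hx'
          have h1 := hx' rfl
          rw [if_neg hp] at h1
          have h2 := hqA _ h1
          rw [hq.conj hx hk] at h2
          rw [if_neg (fun h => hp h.2), ← h2]
          simp only [fr, if_true]
        · intro r g hg
          have h1 := hg w k hk
          simp only [fr, if_true] at h1
          rw [if_neg (fun h => hp h.2), Option.elim_some, h1]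
          group
    · refine ⟨1, ?_, ?_⟩
      · intro x hx _
        simp only [hw, false_and, if_false, hk1 hw, fr]
        simp
      · intro r g hg
        simp only [hw, false_and, if_false, hk1 hw, Option.elim_some]
        simp
  choose α hα1 hα2 using fun e => hend (S.a e) (d.pa e) (d.ka e) (d.ka_mem e) (d.ka_one e)
  choose β hβ1 hβ2 using fun e => hend (S.b e) (d.pb e) (d.kb e) (d.kb_mem e) (d.kb_one e)
  let F : Fam S Q :=
    { r := fr
      t := fun e => α e * F'.t (some e) * (β e)⁻¹
      mul := hfr
      cm := by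
        intro e c hc
        have hc1 := S.Ca e hc
        have hc2 := S.Cb e c hc
        have hc' : (d.ka e)⁻¹ * c * d.ka e ∈ (S.refA v d).C (some e) := by
          change d.ka e * ((d.ka e)⁻¹ * c * d.ka e) * (d.ka e)⁻¹ ∈ S.C e
          have h : d.ka e * ((d.ka e)⁻¹ * c * d.ka e) * (d.ka e)⁻¹ = c := by group
          rw [h]
          exact hc
        have h1 := F'.cm (some e) _ hc'
        have h2 : ((S.refA v d).s (some e))⁻¹ * ((d.ka e)⁻¹ * c * d.ka e) *
            (S.refA v d).s (some e) = (d.kb e)⁻¹ * ((S.s e)⁻¹ * c * S.s e) * d.kb e := by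
          change ((d.ka e)⁻¹ * S.s e * d.kb e)⁻¹ * ((d.ka e)⁻¹ * c * d.ka e) *
            ((d.ka e)⁻¹ * S.s e * d.kb e) = _
          group
        rw [h2] at h1
        have h3 := hα1 e c hc1 (fun h => d.ca e h c hc)
        have h4 := hβ1 e _ hc2 (fun h => d.cb e h c hc)
        have h5 : F'.r ((S.refA v d).a (some e)) ((d.ka e)⁻¹ * c * d.ka e) =
            (α e)⁻¹ * fr (S.a e) c * α e := h3
        have h6 : F'.r ((S.refA v d).b (some e)) ((d.kb e)⁻¹ * ((S.s e)⁻¹ * c * S.s e) * d.kb e) =
            (β e)⁻¹ * fr (S.b e) ((S.s e)⁻¹ * c * S.s e) * β e := h4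
        rw [h5, h6] at h1
        have h7 : fr (S.a e) c = α e * ((α e)⁻¹ * fr (S.a e) c * α e) * (α e)⁻¹ := by group
        rw [h7, h1]
        group }
  obtain ⟨r, g, hF⟩ := hS.ext Q hQ F
  have hv : ∀ w, ∀ x ∈ S.G w, fr w x = (g w)⁻¹ * r x * g w := hF.vtx
  refine ⟨r, fun o => o.elim (g v * τ) g, ?_, ?_⟩
  · intro w x hx
    cases w with
    | none =>
      have h1 := hqA' x hx
      have h2 := hv v x (hA'v hx)
      simp only [fr, if_true] at h2
      rw [h2] at h1
      have h3 : F'.r none x = τ⁻¹ * (τ * F'.r none x * τ⁻¹) * τ := by group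
      rw [h3, ← h1]
      simp only [Option.elim_none]
      group
    | some w =>
      simp only [Option.elim_some]
      by_cases hw : w = v
      · subst hw
        have hx' : x ∈ d.A := by
          have h := hx
          rw [hGs, if_pos rfl] at h
          exact h
        have h2 := hv w x (hAv hx')
        simp only [fr, if_true] at h2
        rw [← hqA x hx', h2]
      · have hx' : x ∈ S.G w := by
          have h := hx
          rw [hGs, if_neg hw] at h
          exact h
        have h2 := hv w x hx'
        simp only [fr, hw, if_false] at h2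
        exact h2
  · intro e
    cases e with
    | none =>
      change F'.t none = ((some v : Option S.V).elim (g v * τ) g)⁻¹ * r 1 *
        (none : Option S.V).elim (g v * τ) g
      simp only [Option.elim_none, Option.elim_some, map_one]
      rw [← hτ]
      group
    | some e =>
      have h1 := hα2 e r g hv
      have h2 := hβ2 e r g hv
      have h3 := hF.edg e
      change α e * F'.t (some e) * (β e)⁻¹ = (g (S.a e))⁻¹ * r (S.s e) * g (S.b e) at h3
      change F'.t (some e) = ((if S.a e = v ∧ d.pa e = true then none else some (S.a e) :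
        Option S.V).elim (g v * τ) g)⁻¹ * r ((d.ka e)⁻¹ * S.s e * d.kb e) *
        ((if S.b e = v ∧ d.pb e = true then none else some (S.b e) :
        Option S.V).elim (g v * τ) g)
      rw [h1, h2]
      have h4 : F'.t (some e) = (α e)⁻¹ * (α e * F'.t (some e) * (β e)⁻¹) * β e := by group
      rw [h4, h3]
      simp only [map_mul, map_inv]
      group


/-- THEOREM: the refinement by an HNN extension preserves the universal property of degree `N`. -/
theorem refH_upN {N : ℕ} (hN : 2 ≤ N) (hS : S.UPN N) {v : S.V} (d : S.RefH v)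
    (hn : IsHnN N (S.G v) d.A d.D d.s) : (S.refH v d).UPN N := by
  refine ⟨refH_gen (hS.up hN) d, ?_⟩
  intro Q _ hQ F'
  have hGs : ∀ w : S.V, (S.refH v d).G w = if w = v then d.A else S.G w := fun w => rfl
  have hA : MulOn d.A (F'.r v) := by
    have h := F'.mulOn v
    rw [hGs, if_pos rfl] at h
    exact h
  have hD : ∀ x ∈ d.D, F'.r v x = F'.t none * F'.r v (d.s⁻¹ * x * d.s) * (F'.t none)⁻¹ :=
    fun x hx => F'.cm none x hx
  obtain ⟨q, hq, hqA, hqs⟩ := hn.ext Q hQ _ _ hA hD
  have hAv : d.A ≤ S.G v := by rw [d.hn.sup]; exact le_sup_left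
  have hsv : d.s ∈ S.G v := by
    rw [d.hn.sup]
    exact (le_sup_right : _ ≤ d.A ⊔ Subgroup.zpowers d.s) (Subgroup.mem_zpowers _)
  let fr : S.V → Γ → Q := fun w => if w = v then q else F'.r w
  have hfr : ∀ w, MulOn (S.G w) (fr w) := by
    intro w
    by_cases hw : w = v
    · subst hw
      simp only [fr, if_true]
      exact hq
    · have h := F'.mulOn w
      rw [hGs, if_neg hw] at h
      simp only [fr, hw, if_false]
      exact h
  have hend : ∀ (w : S.V) (k : Γ), k ∈ S.G v → (w ≠ v → k = 1) →
      ∃ α : Q,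
        (∀ x ∈ S.G w, (w = v → k⁻¹ * x * k ∈ d.A) →
          F'.r w (k⁻¹ * x * k) = α⁻¹ * fr w x * α) ∧
        ∀ (r : Γ →* Q) (g : S.V → Q),
          (∀ w, ∀ x ∈ S.G w, fr w x = (g w)⁻¹ * r x * g w) → g w = (r k)⁻¹ * g w * α := by
    intro w k hk hk1
    by_cases hw : w = v
    · subst hw
      refine ⟨q k, ?_, ?_⟩
      · intro x hx hx'
        have h2 := hqA _ (hx' rfl)
        rw [hq.conj hx hk] at h2
        simp only [fr, if_true]
        exact h2.symm
      · intro r g hg
        have h1 := hg w k hk
        simp only [fr, if_true] at h1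
        rw [h1]
        group
    · refine ⟨1, ?_, ?_⟩
      · intro x hx _
        simp only [hw, if_false, hk1 hw, fr]
        simp
      · intro r g hg
        rw [hk1 hw]
        simp
  choose α hα1 hα2 using fun e => hend (S.a e) (d.ka e) (d.ka_mem e) (d.ka_one e)
  choose β hβ1 hβ2 using fun e => hend (S.b e) (d.kb e) (d.kb_mem e) (d.kb_one e)
  let F : Fam S Q :=
    { r := fr
      t := fun e => α e * F'.t (some e) * (β e)⁻¹
      mul := hfr
      cm := by
        intro e c hc
        have hc1 := S.Ca e hc
        have hc2 := S.Cb e c hc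
        have hc' : (d.ka e)⁻¹ * c * d.ka e ∈ (S.refH v d).C (some e) := by
          change d.ka e * ((d.ka e)⁻¹ * c * d.ka e) * (d.ka e)⁻¹ ∈ S.C e
          have h : d.ka e * ((d.ka e)⁻¹ * c * d.ka e) * (d.ka e)⁻¹ = c := by group
          rw [h]
          exact hc
        have h1 := F'.cm (some e) _ hc'
        have h2 : ((S.refH v d).s (some e))⁻¹ * ((d.ka e)⁻¹ * c * d.ka e) *
            (S.refH v d).s (some e) = (d.kb e)⁻¹ * ((S.s e)⁻¹ * c * S.s e) * d.kb e := by
          change ((d.ka e)⁻¹ * S.s e * d.kb e)⁻¹ * ((d.ka e)⁻¹ * c * d.ka e) *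
            ((d.ka e)⁻¹ * S.s e * d.kb e) = _
          group
        rw [h2] at h1
        have h5 : F'.r ((S.refH v d).a (some e)) ((d.ka e)⁻¹ * c * d.ka e) =
            (α e)⁻¹ * fr (S.a e) c * α e := hα1 e c hc1 (fun h => d.ca e h c hc)
        have h6 : F'.r ((S.refH v d).b (some e)) ((d.kb e)⁻¹ * ((S.s e)⁻¹ * c * S.s e) * d.kb e) =
            (β e)⁻¹ * fr (S.b e) ((S.s e)⁻¹ * c * S.s e) * β e :=
          hβ1 e _ hc2 (fun h => d.cb e h c hc)
        rw [h5, h6] at h1
        have h7 : fr (S.a e) c = α e * ((α e)⁻¹ * fr (S.a e) c * α e) * (α e)⁻¹ := by group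
        rw [h7, h1]
        group }
  obtain ⟨r, g, hF⟩ := hS.ext Q hQ F
  have hv : ∀ w, ∀ x ∈ S.G w, fr w x = (g w)⁻¹ * r x * g w := hF.vtx
  refine ⟨r, g, ?_, ?_⟩
  · intro (w : S.V) x hx
    by_cases hw : w = v
    · subst hw
      have hx' : x ∈ d.A := by
        have h := hx
        rw [hGs, if_pos rfl] at h
        exact h
      have h2 := hv w x (hAv hx')
      simp only [fr, if_true] at h2
      rw [← hqA x hx', h2]
    · have hx' : x ∈ S.G w := by
        have h := hx
        rw [hGs, if_neg hw] at h
        exact h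
      have h2 := hv w x hx'
      simp only [fr, hw, if_false] at h2
      exact h2
  · intro e
    cases e with
    | none =>
      change F'.t none = (g v)⁻¹ * r d.s * g v
      have h1 := hv v d.s hsv
      simp only [fr, if_true] at h1
      rw [← h1, hqs]
    | some e =>
      have h1 := hα2 e r g hv
      have h2 := hβ2 e r g hv
      have h3 := hF.edg e
      change α e * F'.t (some e) * (β e)⁻¹ = (g (S.a e))⁻¹ * r (S.s e) * g (S.b e) at h3
      change F'.t (some e) = (g (S.a e))⁻¹ * r ((d.ka e)⁻¹ * S.s e * d.kb e) * g (S.b e)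
      rw [h1, h2]
      have h4 : F'.t (some e) = (α e)⁻¹ * (α e * F'.t (some e) * (β e)⁻¹) * β e := by group
      rw [h4, h3]
      simp only [map_mul, map_inv]
      group

end Pool.Agent.FrS.GG
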