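import Pool.Agent.Lib.MP_305fdd_al.Fr.S.Ctr
import Pool.Agent.Lib.MP_305fdd_al.Su.UN.Up

/-!
# MP_305fdd_al, closed surface groups: collapses preserve the universal property of degree `N`
-/

set_option autoImplicit false

namespace Pool.Agent.FrS.GG

open Pool.Agent.SuUN

variable {Γ : Type} [Group Γ]

namespace Col

variable {S S' : GG Γ} (c : Col S S')

include c in
/-- a collapse preserves the universal property of degree `N` -/
theorem upN {N : ℕ} (h : S.UPN N) : S'.UPN N where
  gen u v g := by
    have h1 := c.pth (h.gen (c.σ u) (c.σ v) g)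
    rw [c.φσ, c.φσ, c.τσ, c.τσ] at h1
    simpa using h1
  ext Q _ hQ F := by
    obtain ⟨r, g, hv, he⟩ := h.ext Q hQ (c.pull F)
    have key : ∀ w, r (c.τ w) * g w = g (c.σ (c.φ w)) := by
      intro w
      by_cases hw : w = c.σ (c.φ w)
      · rw [← hw]
        rw [hw, c.τσ, map_one, one_mul]
      · obtain ⟨e, hε, hea, heb, hk⟩ := c.tree w hw
        have h1 := he e
        have h2 : (c.pull F).t e = 1 := by
          change (c.ε e).elim _ _ = _
          rw [hε, Option.elim_none, hk]
          exact F.one _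
        rw [h2, hea, heb] at h1
        rw [hea, heb, c.τσ, one_mul] at hk
        have h3 : S.s e = c.τ w := by
          rw [← mul_inv_eq_one]
          exact hk
        rw [h3, mul_assoc] at h1
        exact (eq_of_inv_mul_eq_one h1.symm).symm
    refine ⟨r, fun w' => g (c.σ w'), ?_, ?_⟩
    · intro w' x hx
      have hcl := c.genG w' x hx
      have hsub : ∀ y ∈ ({y | ∃ w, c.φ w = w' ∧ ∃ x ∈ S.G w, y = c.τ w * x * (c.τ w)⁻¹} ∪
          {y | ∃ e, c.ε e = none ∧ S.a e = S.b e ∧ c.φ (S.a e) = w' ∧
          y = c.τ (S.a e) * S.s e * (c.τ (S.b e))⁻¹} : Set Γ), y ∈ S'.G w' := by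
        rintro y (⟨w, rfl, x, hx, rfl⟩ | ⟨e, h1, h2, rfl, rfl⟩)
        · exact c.G w x hx
        · exact c.Ns e h1
      have hmem : ∀ y ∈ Subgroup.closure
          ({y | ∃ w, c.φ w = w' ∧ ∃ x ∈ S.G w, y = c.τ w * x * (c.τ w)⁻¹} ∪
          {y | ∃ e, c.ε e = none ∧ S.a e = S.b e ∧ c.φ (S.a e) = w' ∧
          y = c.τ (S.a e) * S.s e * (c.τ (S.b e))⁻¹}), y ∈ S'.G w' := by
        intro y hy
        exact (Subgroup.closure_le _).2 hsub hy
      have hr : ∀ y ∈ Subgroup.closure
          ({y | ∃ w, c.φ w = w' ∧ ∃ x ∈ S.G w, y = c.τ w * x * (c.τ w)⁻¹} ∪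
          {y | ∃ e, c.ε e = none ∧ S.a e = S.b e ∧ c.φ (S.a e) = w' ∧
          y = c.τ (S.a e) * S.s e * (c.τ (S.b e))⁻¹}),
          F.r w' y = (g (c.σ w'))⁻¹ * r y * g (c.σ w') := by
        intro y hy
        induction hy using Subgroup.closure_induction with
        | mem y hy =>
          rcases hy with ⟨w, rfl, z, hz, rfl⟩ | ⟨e, h1, h2, rfl, rfl⟩
          · have h1 : F.r (c.φ w) (c.τ w * z * (c.τ w)⁻¹) = (g w)⁻¹ * r z * g w := hv w z hz
            rw [h1, ← key w]
            simp only [map_mul, map_inv]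
            group
          · have h3 := he e
            have h4 : (c.pull F).t e =
                F.r (c.φ (S.a e)) (c.τ (S.a e) * S.s e * (c.τ (S.b e))⁻¹) := by
              change (c.ε e).elim _ _ = _
              rw [h1, Option.elim_none]
            rw [← h4, h3, ← key (S.a e)]
            simp only [map_mul, map_inv]
            have h5 : c.τ (S.b e) = c.τ (S.a e) := by rw [h2]
            have h6 : g (S.b e) = g (S.a e) := by rw [h2]
            rw [h5, h6]
            group
        | one =>
          rw [F.one, map_one]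
          group
        | mul y z hy hz ihy ihz =>
          rw [F.mul _ _ (hmem y hy) _ (hmem z hz), ihy, ihz, map_mul]
          group
        | inv y hy ihy =>
          rw [F.inv _ (hmem y hy), ihy, map_inv]
          group
      exact hr x hcl
    · intro e'
      obtain ⟨e, hε⟩ := c.surjE e'
      have h1 := he e
      have h2 : (c.pull F).t e = F.t e' := by
        change (c.ε e).elim _ _ = _
        rw [hε, Option.elim_some]
      rw [h2] at h1
      rw [h1, c.Ea e e' hε, c.Eb e e' hε, c.Es e e' hε, ← key (S.a e), ← key (S.b e)]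
      simp only [map_mul, map_inv]
      group

end Col

variable (S : GG Γ) (e₀ : S.E)

/-- THEOREM: contraction of an edge with different ends preserves the universal property of
degree `N`. -/
theorem ctr_upN {N : ℕ} (h0 : S.a e₀ ≠ S.b e₀) (h : S.UPN N) : (S.ctr e₀ h0).UPN N :=
  (S.colCtr e₀ h0).upN h

/-- THEOREM: contraction of a loop preserves the universal property of degree `N`. -/
theorem ctrL_upN {N : ℕ} (h0 : S.b e₀ = S.a e₀) (h : S.UPN N) : (S.ctrL e₀).UPN N :=
  (S.colCtrL e₀ h0).upN h

end Pool.Agent.FrS.GG
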