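import Pool.Agent.Lib.MP_305fdd_al.Fr.V.Am
import Pool.Agent.Lib.MP_305fdd_al.Su.UN.Defs

/-!
# MP_305fdd_al, closed surface groups: from an action on a tree to `IsAmN` / `IsHnN`
-/

set_option autoImplicit false
set_option linter.unusedSectionVars false

namespace Pool.Agent.SuUN

open Pool.Agent.FrS Pool.Agent.FrT Pool.Agent.FrV Matrix Monoid

variable {G Γ : Type} [Group G] [Group Γ]

/-- all homomorphisms of `G` to linear groups of degree `N` factor through `j` -/
def FacN (N : ℕ) (j : G →* Γ) : Prop :=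
  ∀ (Q : Type) [Group Q], Lin N Q → ∀ r : G →* Q, j.ker ≤ r.ker

/-- the induced map on the image -/
theorem FacN.desc {N : ℕ} {j : G →* Γ} (hj : FacN N j) {Q : Type} [Group Q] (hQ : Lin N Q)
    (r : G →* Q) : ∃ q : Γ → Q, MulOn j.range q ∧ ∀ g, q (j g) = r g := by
  classical
  let q : Γ → Q := fun γ => if h : ∃ g, j g = γ then r h.choose else 1
  have hq : ∀ g, q (j g) = r g := by
    intro g
    have hex : ∃ g', j g' = j g := ⟨g, rfl⟩
    simp only [q]
    rw [dif_pos hex]
    have h1 : hex.choose * g⁻¹ ∈ j.ker := by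
      rw [MonoidHom.mem_ker, map_mul, map_inv, hex.choose_spec, mul_inv_cancel]
    have h2 : r (hex.choose * g⁻¹) = 1 := hj Q hQ r h1
    rw [map_mul, map_inv, mul_inv_eq_one] at h2
    exact h2
  refine ⟨q, ?_, hq⟩
  rintro _ ⟨a, rfl⟩ _ ⟨b, rfl⟩
  rw [← map_mul, hq, hq, hq, map_mul]

section

variable {V : Type} [MulAction G V] {X : SimpleGraph V}
  (hact : ∀ (g : G) (x y : V), X.Adj x y → X.Adj (g • x) (g • y)) {u v : V}

/-- AMALGAM -/
theorem isAmN {N : ℕ} (j : G →* Γ) (hj : FacN N j) (hX : X.IsTree)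
    (hinv : ∀ g : G, ¬ (g • u = v ∧ g • v = u)) (huv : X.Adj u v)
    (hno : ∀ g : G, ¬ Rch G X u v (g • u) v) :
    IsAmN N j.range ((Sst (u := u) (v := v) hact u).map j) ((Sst (u := u) (v := v) hact v).map j)
      ((SC G u v).map j) := by
  let S : Fin 2 → Subgroup G := fun i => if i = 0 then Sst (u := u) (v := v) hact u else
    Sst (u := u) (v := v) hact v
  have hS0 : S 0 = Sst (u := u) (v := v) hact u := rfl
  have hS1 : S 1 = Sst (u := u) (v := v) hact v := rfl
  have hC : ∀ i, SC G u v ≤ S i := by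
    intro i
    fin_cases i
    · exact SC_le_u hact
    · exact SC_le_v hact
  have hbij := amalg hact hX hinv huv hno S hS0 hS1 hC
  set φ : ∀ i, SC G u v →* S i := fun i => Subgroup.inclusion (hC i) with hφ
  set nat : PushoutI φ →* G := PushoutI.lift (φ := φ)
      (fun i => (S i).subtype) (SC G u v).subtype (fun i => by ext x; rfl) with hnat
  have hnat_of : ∀ i (a : S i), nat (PushoutI.of i a) = a := by
    intro i a
    rw [hnat, PushoutI.lift_of]
    rfl
  have hbij' : Function.Bijective nat := hbij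
  let Φ : PushoutI φ ≃* G := MulEquiv.ofBijective nat hbij'
  have hΦ : ∀ i (a : S i), Φ.symm (a : G) = PushoutI.of i a := by
    intro i a
    rw [MulEquiv.symm_apply_eq]
    exact (hnat_of i a).symm
  refine ⟨?_, Subgroup.map_mono (SC_le_u hact), Subgroup.map_mono (SC_le_v hact), ?_⟩
  · -- generation
    apply le_antisymm
    · rintro _ ⟨g, rfl⟩
      obtain ⟨w, rfl⟩ := hbij'.2 g
      induction w using PushoutI.induction_on with
      | of i a =>
        rw [hnat_of]
        fin_cases i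
        · exact Subgroup.mem_sup_left ⟨_, a.2, rfl⟩
        · exact Subgroup.mem_sup_right ⟨_, a.2, rfl⟩
      | base c =>
        have h0 := PushoutI.of_apply_eq_base φ 0 c
        rw [← h0, hnat_of]
        exact Subgroup.mem_sup_left ⟨_, (φ 0 c).2, rfl⟩
      | mul x y hx hy =>
        rw [map_mul, map_mul]
        exact Subgroup.mul_mem _ hx hy
    · rw [sup_le_iff]
      constructor
      · rintro _ ⟨a, _, rfl⟩
        exact ⟨a, rfl⟩
      · rintro _ ⟨a, _, rfl⟩
        exact ⟨a, rfl⟩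
  · intro Q _ hQ r r' hr hr' hrr
    obtain ⟨a0, ha0⟩ := exists_pull j hr
    obtain ⟨a1, ha1⟩ := exists_pull j hr'
    let fi : ∀ i, S i →* Q := fun i =>
      match i with
      | 0 => a0
      | 1 => a1
    have hf0 : ∀ a : S 0, fi 0 a = r (j a) := ha0
    have hf1 : ∀ a : S 1, fi 1 a = r' (j a) := ha1
    let base : SC G u v →* Q := (fi 0).comp (φ 0)
    have hcomp : ∀ i, (fi i).comp (φ i) = base := by
      intro i
      fin_cases i
      · rfl
      · ext c : 1
        show fi 1 (φ 1 c) = fi 0 (φ 0 c)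
        rw [hf0, hf1]
        exact (hrr (j (c : G)) ⟨_, c.2, rfl⟩).symm
    let ψ : PushoutI φ →* Q := PushoutI.lift fi base hcomp
    have hψ : ∀ i (a : S i), ψ (PushoutI.of i a) = fi i a := fun i a => PushoutI.lift_of fi base hcomp a
    let rG : G →* Q := ψ.comp Φ.symm.toMonoidHom
    obtain ⟨q, hq1, hq2⟩ := hj.desc hQ rG
    refine ⟨q, hq1, ?_, ?_⟩
    · rintro _ ⟨a, ha, rfl⟩
      rw [hq2]
      show ψ (Φ.symm a) = _
      have h1 := hΦ 0 ⟨a, ha⟩
      have h1' : Φ.symm a = PushoutI.of 0 (⟨a, ha⟩ : S 0) := h1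
      rw [h1', hψ, hf0]
    · rintro _ ⟨a, ha, rfl⟩
      rw [hq2]
      show ψ (Φ.symm a) = _
      have h1 := hΦ 1 ⟨a, ha⟩
      have h1' : Φ.symm a = PushoutI.of 1 (⟨a, ha⟩ : S 1) := h1
      rw [h1', hψ, hf1]

/-- HNN -/
theorem isHnN {N : ℕ} (j : G →* Γ) (hj : FacN N j) (hX : X.IsTree)
    (hinv : ∀ g : G, ¬ (g • u = v ∧ g • v = u)) (huv : X.Adj u v)
    (t : G) (ht : Rch G X u v (t • u) v) :
    IsHnN N j.range ((Sst (u := u) (v := v) hact u).map j) ((SC G u v).map j) (j t) := by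
  obtain ⟨A, hA⟩ : ∃ A, A = Sst (u := u) (v := v) hact u := ⟨_, rfl⟩
  obtain ⟨C₁, C₂, φ, hC1, hC2, hφ⟩ := hnn_data hact t ht A hA
  have hbij := hnn hact hX hinv huv t ht A hA C₁ C₂ hC1 hC2 φ hφ
  set nat : HNNExtension A C₁ C₂ φ →* G := HNNExtension.lift (φ := φ) A.subtype t
      (fun a => by rw [Subgroup.subtype_apply, Subgroup.subtype_apply, hφ]; group) with hnat
  have hnat_of : ∀ (a : A), nat (HNNExtension.of a) = a := by
    intro a
    rw [hnat, HNNExtension.lift_of]
    rfl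
  have hnat_t : nat HNNExtension.t = t := by
    rw [hnat, HNNExtension.lift_t]
  have hbij' : Function.Bijective nat := hbij
  let Φ : HNNExtension A C₁ C₂ φ ≃* G := MulEquiv.ofBijective nat hbij'
  have hΦ : ∀ a : A, Φ.symm (a : G) = HNNExtension.of a := by
    intro a
    rw [MulEquiv.symm_apply_eq]
    exact (hnat_of a).symm
  have hΦt : Φ.symm t = HNNExtension.t := by
    rw [MulEquiv.symm_apply_eq]
    exact hnat_t.symm
  rw [← hA]
  have hCA : SC G u v ≤ A := by rw [hA]; exact SC_le_u hact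
  refine ⟨?_, Subgroup.map_mono hCA, ?_, ?_⟩
  · -- generation
    apply le_antisymm
    · rintro _ ⟨g, rfl⟩
      obtain ⟨w, rfl⟩ := hbij'.2 g
      induction w using HNNExtension.induction_on with
      | of a =>
        rw [hnat_of]
        exact Subgroup.mem_sup_left ⟨_, a.2, rfl⟩
      | t =>
        rw [hnat_t]
        exact Subgroup.mem_sup_right (Subgroup.mem_zpowers _)
      | mul x y hx hy =>
        rw [map_mul, map_mul]
        exact Subgroup.mul_mem _ hx hy
      | inv x hx =>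
        rw [map_inv, map_inv]
        exact Subgroup.inv_mem _ hx
    · rw [sup_le_iff]
      constructor
      · rintro _ ⟨a, _, rfl⟩
        exact ⟨a, rfl⟩
      · rw [Subgroup.zpowers_le]
        exact ⟨t, rfl⟩
  · rintro _ ⟨c, hc, rfl⟩
    rw [← map_inv, ← map_mul, ← map_mul]
    refine ⟨_, ?_, rfl⟩
    rw [hA]
    exact conj_Sst hact ht (SC_le_v hact hc)
  · intro Q _ hQ r τ hr hrr
    obtain ⟨a0, ha0⟩ := exists_pull j hr
    let ψ : HNNExtension A C₁ C₂ φ →* Q :=
      HNNExtension.lift (φ := φ) a0 τ (by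
        intro a
        rw [ha0, ha0, hφ]
        have h1 := hrr (j (t * ((a : A) : G) * t⁻¹)) ⟨_, (hC1 _).1 a.2, rfl⟩
        rw [← map_inv, ← map_mul, ← map_mul] at h1
        have h2 : t⁻¹ * (t * ((a : A) : G) * t⁻¹) * t = ((a : A) : G) := by group
        rw [h2] at h1
        rw [h1, inv_mul_cancel_right])
    have hψ : ∀ a : A, ψ (HNNExtension.of a) = a0 a := fun a => HNNExtension.lift_of _ _ _ a
    have hψt : ψ HNNExtension.t = τ := HNNExtension.lift_t _ _ _
    let rG : G →* Q := ψ.comp Φ.symm.toMonoidHom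
    obtain ⟨q, hq1, hq2⟩ := hj.desc hQ rG
    refine ⟨q, hq1, ?_, ?_⟩
    · rintro _ ⟨a, ha, rfl⟩
      rw [hq2]
      show ψ (Φ.symm a) = _
      have h1 := hΦ ⟨a, ha⟩
      have h1' : Φ.symm a = HNNExtension.of (⟨a, ha⟩ : A) := h1
      rw [h1', hψ, ha0]
    · rw [hq2]
      show ψ (Φ.symm t) = _
      rw [hΦt, hψt]

end

end Pool.Agent.SuUN
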