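import Pool.Agent.Lib.MP_305fdd_al.Fr.V.Cover
import Pool.Agent.Lib.MP_305fdd_al.Su.UN.Defs

/-!
# MP_305fdd_al, closed surface groups: finitely presented covers with the same homomorphisms to linear
groups of degree `N`

Every finitely generated group `G` is a quotient of a finitely presented group all of whose
homomorphisms to linear groups of degree `N` factor through `G` (the Hilbert basis theorem).
-/

set_option autoImplicit false
set_option linter.unusedSectionVars false

namespace Pool.Agent.SuUN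

open Matrix

section

variable (σ : Type) [Finite σ] (N : ℕ)

/-- the polynomial ring of the entries of the matrices and of their inverses -/
abbrev B0 : Type := MvPolynomial (σ × Bool × Fin N × Fin N) ℤ

variable {σ N} in
/-- the matrices of the variables -/
noncomputable def bm (i : σ) (b : Bool) : Matrix (Fin N) (Fin N) (B0 σ N) :=
  Matrix.of fun a c => MvPolynomial.X (i, b, a, c)

variable {σ N} in
/-- the product of the two matrices of a variable -/
noncomputable def bm2 (i : σ) (b : Bool) : Matrix (Fin N) (Fin N) (B0 σ N) := bm i b * bm i (!b)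

/-- the relations -/
noncomputable def J0 : Ideal (B0 σ N) := Ideal.span (Set.range fun x : σ × Bool × Fin N × Fin N =>
  ((bm2 x.1 x.2.1 : Matrix (Fin N) (Fin N) (B0 σ N)) x.2.2.1 x.2.2.2 -
    (1 : Matrix (Fin N) (Fin N) (B0 σ N)) x.2.2.1 x.2.2.2 : B0 σ N))

/-- the coordinate ring of `GL_N ^ σ` -/
abbrev B1 : Type := B0 σ N ⧸ J0 σ N

variable {σ N}

theorem bm_mul (i : σ) (b : Bool) : ((bm i b).map (Ideal.Quotient.mk (J0 σ N))) *
    ((bm i (!b)).map (Ideal.Quotient.mk (J0 σ N))) = 1 := by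
  have h : ((bm i b).map (Ideal.Quotient.mk (J0 σ N))) *
      ((bm i (!b)).map (Ideal.Quotient.mk (J0 σ N))) =
      (bm2 i b).map (Ideal.Quotient.mk (J0 σ N)) := by
    rw [bm2, Matrix.map_mul]
  rw [h]
  ext a c
  have h1 : (bm2 i b : Matrix (Fin N) (Fin N) (B0 σ N)) a c -
      (1 : Matrix (Fin N) (Fin N) (B0 σ N)) a c ∈ J0 σ N :=
    Ideal.subset_span ⟨(i, b, a, c), rfl⟩
  have h2 : Ideal.Quotient.mk (J0 σ N) ((bm2 i b : Matrix (Fin N) (Fin N) (B0 σ N)) a c) =
      Ideal.Quotient.mk (J0 σ N) ((1 : Matrix (Fin N) (Fin N) (B0 σ N)) a c) := by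
    rw [Ideal.Quotient.mk_eq_mk_iff_sub_mem]
    exact h1
  rw [Matrix.map_apply, h2]
  by_cases hac : a = c
  · rw [hac, Matrix.one_apply_eq, Matrix.one_apply_eq, map_one]
  · rw [Matrix.one_apply_ne hac, Matrix.one_apply_ne hac, map_zero]

/-- the generic matrices -/
noncomputable def gx (i : σ) : GL (Fin N) (B1 σ N) :=
  ⟨(bm i true).map (Ideal.Quotient.mk (J0 σ N)), (bm i false).map (Ideal.Quotient.mk (J0 σ N)),
    bm_mul i true, bm_mul i false⟩

/-- the generic representation -/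
noncomputable def gr : FreeGroup σ →* GL (Fin N) (B1 σ N) := FreeGroup.lift gx

/-- the map of `GL_N` induced by a map of rings -/
def glm {R R' : Type} [CommRing R] [CommRing R'] (φ : R →+* R') : GL (Fin N) R →* GL (Fin N) R' :=
  Units.map (φ.mapMatrix : Matrix (Fin N) (Fin N) R →+* Matrix (Fin N) (Fin N) R').toMonoidHom

theorem glm_apply {R R' : Type} [CommRing R] [CommRing R'] (φ : R →+* R') (g : GL (Fin N) R)
    (a b : Fin N) : (glm φ g).1 a b = φ (g.1 a b) := rfl

/-- the specialisation -/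
theorem exists_spec {R : Type} [CommRing R] (r : FreeGroup σ →* GL (Fin N) R) :
    ∃ φ : B1 σ N →+* R, (glm φ).comp gr = r := by
  let φ0 : B0 σ N →+* R := MvPolynomial.eval₂Hom (Int.castRingHom R) fun x =>
    if x.2.1 then (r (FreeGroup.of x.1)).1 x.2.2.1 x.2.2.2
    else ((r (FreeGroup.of x.1))⁻¹).1 x.2.2.1 x.2.2.2
  have hX : ∀ x, φ0 (MvPolynomial.X x) = if x.2.1 then (r (FreeGroup.of x.1)).1 x.2.2.1 x.2.2.2
    else ((r (FreeGroup.of x.1))⁻¹).1 x.2.2.1 x.2.2.2 := fun x => MvPolynomial.eval₂Hom_X' _ _ x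
  have hbm : ∀ (i : σ) (b : Bool), (bm i b).map φ0 =
      if b then (r (FreeGroup.of i)).1 else ((r (FreeGroup.of i))⁻¹).1 := by
    intro i b
    ext a c
    have h1 := hX (i, b, a, c)
    have h2 : ((bm i b).map φ0) a c = φ0 (MvPolynomial.X (i, b, a, c)) := rfl
    rw [h2, h1]
    cases b <;> rfl
  have h0 : ∀ a ∈ J0 σ N, φ0 a = 0 := by
    intro a ha
    have : J0 σ N ≤ RingHom.ker φ0 := by
      rw [J0, Ideal.span_le]
      rintro _ ⟨⟨i, b, c, d⟩, rfl⟩
      show φ0 ((bm2 i b : Matrix (Fin N) (Fin N) (B0 σ N)) c d -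
        (1 : Matrix (Fin N) (Fin N) (B0 σ N)) c d) = 0
      have h1 : φ0 ((bm2 i b : Matrix (Fin N) (Fin N) (B0 σ N)) c d) =
          ((bm i b).map φ0 * (bm i (!b)).map φ0 : Matrix (Fin N) (Fin N) R) c d := by
        rw [← Matrix.map_mul]
        rfl
      have h2 : φ0 ((1 : Matrix (Fin N) (Fin N) (B0 σ N)) c d) =
          (1 : Matrix (Fin N) (Fin N) R) c d := by
        by_cases hac : c = d
        · rw [hac, Matrix.one_apply_eq, Matrix.one_apply_eq, map_one]
        · rw [Matrix.one_apply_ne hac, Matrix.one_apply_ne hac, map_zero]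
      rw [map_sub, h1, h2, hbm, hbm]
      cases b
      · have h3 : ((r (FreeGroup.of i))⁻¹).1 * (r (FreeGroup.of i)).1 = 1 := by
          rw [← Units.val_mul, inv_mul_cancel, Units.val_one]
        simp only [Bool.not_false, if_true, Bool.false_eq_true, if_false]
        rw [h3, sub_self]
      · have h3 : (r (FreeGroup.of i)).1 * ((r (FreeGroup.of i))⁻¹).1 = 1 := by
          rw [← Units.val_mul, mul_inv_cancel, Units.val_one]
        simp only [Bool.not_true, if_true, Bool.false_eq_true, if_false]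
        rw [h3, sub_self]
    exact this ha
  refine ⟨Ideal.Quotient.lift (J0 σ N) φ0 h0, ?_⟩
  apply FreeGroup.ext_hom
  intro i
  apply Units.ext
  ext a b
  rw [MonoidHom.comp_apply, glm_apply, gr, FreeGroup.lift_apply_of]
  show Ideal.Quotient.lift (J0 σ N) φ0 h0 (Ideal.Quotient.mk (J0 σ N)
    (MvPolynomial.X (i, true, a, b))) = _
  rw [Ideal.Quotient.lift_mk, hX]
  rfl

/-- Finitely many elements of `X` are enough. -/
theorem exists_W (N : ℕ) (X : Set (FreeGroup σ)) : ∃ W : Finset (FreeGroup σ), (∀ w ∈ W, w ∈ X) ∧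
    ∀ (R : Type) [CommRing R] (r : FreeGroup σ →* GL (Fin N) R), (∀ w ∈ W, r w = 1) →
      ∀ w ∈ X, r w = 1 := by
  classical
  have hσ : Finite (σ × Bool × Fin N × Fin N) := inferInstance
  have hno : IsNoetherianRing (B1 σ N) := inferInstance
  let E : FreeGroup σ × Fin N × Fin N → B1 σ N := fun x => (gr x.1).1 x.2.1 x.2.2 -
    (1 : Matrix (Fin N) (Fin N) (B1 σ N)) x.2.1 x.2.2
  let S : Set (B1 σ N) := E '' {x | x.1 ∈ X}
  have hfg : (Submodule.span (B1 σ N) S).FG := IsNoetherian.noetherian _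
  rw [Submodule.fg_span_iff_fg_span_finset_subset] at hfg
  obtain ⟨S', hS', hspan⟩ := hfg
  have hch : ∀ s : S', ∃ x : FreeGroup σ × Fin N × Fin N, x.1 ∈ X ∧ E x = s := fun s => hS' s.2
  choose f hf1 hf2 using hch
  refine ⟨Finset.univ.image fun s : S' => (f s).1, ?_, ?_⟩
  · intro w hw
    obtain ⟨s, -, rfl⟩ := Finset.mem_image.mp hw
    exact hf1 s
  · intro R _ r hr w hw
    obtain ⟨φ, hφ⟩ := exists_spec r
    have hent : ∀ w a b, φ (E (w, a, b)) = (r w).1 a b - (1 : Matrix (Fin N) (Fin N) R) a b := by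
      intro w a b
      simp only [E, map_sub]
      rw [← hφ, MonoidHom.comp_apply, glm_apply]
      congr 1
      by_cases hab : a = b
      · rw [hab, Matrix.one_apply_eq, Matrix.one_apply_eq, map_one]
      · rw [Matrix.one_apply_ne hab, Matrix.one_apply_ne hab, map_zero]
    have hker : Submodule.span (B1 σ N) S ≤ RingHom.ker φ := by
      rw [hspan, Submodule.span_le]
      intro s hs
      show φ s = 0
      have h1 := hf2 ⟨s, hs⟩
      have h2 : r (f ⟨s, hs⟩).1 = 1 := hr _ (Finset.mem_image.mpr ⟨⟨s, hs⟩, Finset.mem_univ _, rfl⟩)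
      have h3 := hent (f ⟨s, hs⟩).1 (f ⟨s, hs⟩).2.1 (f ⟨s, hs⟩).2.2
      have h4 : E (f ⟨s, hs⟩) = s := h1
      rw [← h4]
      show φ (E ((f ⟨s, hs⟩).1, (f ⟨s, hs⟩).2.1, (f ⟨s, hs⟩).2.2)) = 0
      rw [h3, h2]
      exact sub_self _
    apply Units.ext
    ext a b
    have h5 : E (w, a, b) ∈ Submodule.span (B1 σ N) S := Submodule.subset_span ⟨(w, a, b), hw, rfl⟩
    have h6 : φ (E (w, a, b)) = 0 := hker h5
    rw [hent, sub_eq_zero] at h6
    exact h6

end

/-- the finitely presented cover, in terms of relators -/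
theorem exists_fp (N : ℕ) (G : Type) [Group G] [Group.FG G] :
    ∃ (n : ℕ) (π : FreeGroup (Fin n) →* G) (W : Finset (FreeGroup (Fin n))),
    Function.Surjective π ∧ (∀ w ∈ W, π w = 1) ∧
    ∀ (Q : Type) [Group Q], Lin N Q → ∀ r : FreeGroup (Fin n) →* Q, (∀ w ∈ W, r w = 1) →
      ∀ w, π w = 1 → r w = 1 := by
  classical
  obtain ⟨S, hS⟩ := Group.fg_def.1 (inferInstance : Group.FG G)
  let e := S.equivFin
  let π : FreeGroup (Fin S.card) →* G := FreeGroup.lift fun i => ((e.symm i : S) : G)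
  have hπ : Function.Surjective π := by
    rw [← MonoidHom.range_eq_top, eq_top_iff, ← hS, Subgroup.closure_le]
    intro s hs
    refine ⟨FreeGroup.of (e ⟨s, hs⟩), ?_⟩
    simp only [π, FreeGroup.lift_apply_of, Equiv.symm_apply_apply]
  obtain ⟨W, hW1, hW2⟩ := exists_W N (π.ker : Set (FreeGroup (Fin S.card)))
  refine ⟨S.card, π, W, hπ, hW1, fun Q _ hQ r hr w hw => ?_⟩
  obtain ⟨R, _, i, hi⟩ := hQ
  have h1 := hW2 R (i.comp r) (fun w hw => by rw [MonoidHom.comp_apply, hr w hw, map_one]) w hw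
  apply hi
  rw [map_one]
  exact h1

/-- the finitely presented cover, with lifts of abelian subgroups -/
theorem exists_coverN (N : ℕ) (Γ ι : Type) [Group Γ] [Group.FG Γ] [Finite ι] (E : ι → Subgroup Γ)
    (hE : ∀ i, (E i).FG) (hab : ∀ i, ∀ a ∈ E i, ∀ b ∈ E i, a * b = b * a) :
    ∃ (G : Type) (_ : Group G) (n : ℕ) (π₀ : FreeGroup (Fin n) →* G)
      (R₀ : Finset (FreeGroup (Fin n))) (q : G →* Γ) (E' : ι → Subgroup G),
      Function.Surjective π₀ ∧ π₀.ker = Subgroup.normalClosure (R₀ : Set (FreeGroup (Fin n))) ∧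
      Function.Surjective q ∧
      (∀ (Q : Type) [Group Q], Lin N Q → ∀ r : G →* Q, q.ker ≤ r.ker) ∧
      (∀ i, (E' i).FG) ∧ (∀ i, ∀ a ∈ E' i, ∀ b ∈ E' i, a * b = b * a) ∧
      ∀ i, (E' i).map q = E i := by
  classical
  have := Fintype.ofFinite ι
  obtain ⟨n, π, W, hπ, hW, hrep⟩ := exists_fp N Γ
  choose S hS using hE
  choose lft hlft using hπ
  let W' : Finset (FreeGroup (Fin n)) := W ∪ Finset.univ.biUnion fun i : ι =>
    ((S i) ×ˢ (S i)).image fun p => lft p.1 * lft p.2 * (lft p.1)⁻¹ * (lft p.2)⁻¹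
  have hW' : ∀ w ∈ W', π w = 1 := by
    intro w hw
    rcases Finset.mem_union.mp hw with hw | hw
    · exact hW w hw
    · obtain ⟨i, -, hw⟩ := Finset.mem_biUnion.mp hw
      obtain ⟨⟨a, b⟩, hab', rfl⟩ := Finset.mem_image.mp hw
      obtain ⟨ha, hb⟩ := Finset.mem_product.mp hab'
      simp only [map_mul, map_inv, hlft]
      have ha' : a ∈ E i := by rw [← hS i]; exact Subgroup.subset_closure ha
      have hb' : b ∈ E i := by rw [← hS i]; exact Subgroup.subset_closure hb
      rw [hab i a ha' b hb']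
      group
  let N' : Subgroup (FreeGroup (Fin n)) := Subgroup.normalClosure (W' : Set (FreeGroup (Fin n)))
  have hNle : N' ≤ π.ker := Subgroup.normalClosure_le_normal hW'
  let q : FreeGroup (Fin n) ⧸ N' →* Γ := QuotientGroup.lift N' π hNle
  have hq : ∀ w : FreeGroup (Fin n), q (QuotientGroup.mk w) = π w := fun w => rfl
  let E' : ι → Subgroup (FreeGroup (Fin n) ⧸ N') := fun i =>
    Subgroup.closure ((fun a => (QuotientGroup.mk (lft a) : FreeGroup (Fin n) ⧸ N')) '' (S i))
  refine ⟨FreeGroup (Fin n) ⧸ N', inferInstance, n, QuotientGroup.mk' N', W', q, E',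
    QuotientGroup.mk'_surjective N', QuotientGroup.ker_mk' N', ?_, ?_, ?_, ?_, ?_⟩
  · intro g
    exact ⟨QuotientGroup.mk (lft g), by rw [hq, hlft]⟩
  · intro Q _ hQ r x hx
    obtain ⟨w, rfl⟩ := QuotientGroup.mk_surjective x
    have h1 : π w = 1 := hx
    have h2 : ∀ w ∈ W, (r.comp (QuotientGroup.mk' N')) w = 1 := by
      intro w hw
      have h3 : (QuotientGroup.mk' N') w = 1 := by
        rw [← MonoidHom.mem_ker, QuotientGroup.ker_mk']
        exact Subgroup.subset_normalClosure (Finset.mem_coe.mpr (Finset.mem_union_left _ hw))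
      rw [MonoidHom.comp_apply, h3, map_one]
    exact hrep Q hQ (r.comp (QuotientGroup.mk' N')) h2 w h1
  · intro i
    exact ⟨(S i).image fun a => (QuotientGroup.mk (lft a) : FreeGroup (Fin n) ⧸ N'), by
      rw [Finset.coe_image]⟩
  · intro i
    refine Pool.Agent.FrV.comm_closure ?_
    rintro _ ⟨a, ha, rfl⟩ _ ⟨b, hb, rfl⟩
    have h1 : lft a * lft b * (lft a)⁻¹ * (lft b)⁻¹ ∈ N' := by
      refine Subgroup.subset_normalClosure (Finset.mem_coe.mpr (Finset.mem_union_right _ ?_))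
      exact Finset.mem_biUnion.mpr ⟨i, Finset.mem_univ _, Finset.mem_image.mpr
        ⟨(a, b), Finset.mem_product.mpr ⟨ha, hb⟩, rfl⟩⟩
    have h2 : (QuotientGroup.mk (lft a * lft b * (lft a)⁻¹ * (lft b)⁻¹) :
        FreeGroup (Fin n) ⧸ N') = 1 := (QuotientGroup.eq_one_iff _).mpr h1
    have h3 : (QuotientGroup.mk (lft a) : FreeGroup (Fin n) ⧸ N') * QuotientGroup.mk (lft b) =
        QuotientGroup.mk (lft a * lft b * (lft a)⁻¹ * (lft b)⁻¹) *
          (QuotientGroup.mk (lft b) * QuotientGroup.mk (lft a)) := by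
      rw [← QuotientGroup.mk_mul, ← QuotientGroup.mk_mul, ← QuotientGroup.mk_mul]
      congr 1
      group
    show (QuotientGroup.mk (lft a) : FreeGroup (Fin n) ⧸ N') * QuotientGroup.mk (lft b) =
      QuotientGroup.mk (lft b) * QuotientGroup.mk (lft a)
    rw [h3, h2, one_mul]
  · intro i
    rw [MonoidHom.map_closure, ← hS i]
    congr 1
    ext a
    constructor
    · rintro ⟨_, ⟨b, hb, rfl⟩, rfl⟩
      rw [hq, hlft]
      exact hb
    · intro ha
      exact ⟨_, ⟨a, ha, rfl⟩, by rw [hq, hlft]⟩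

end Pool.Agent.SuUN
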