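import Pool.Agent.Lib.MP_305fdd_al.Su.UN.Main
import Pool.Agent.Lib.MP_305fdd_al.Su.UN.Ctr
import Pool.Agent.Lib.MP_305fdd_al.Fr.R.Main
import Pool.Agent.Lib.MP_305fdd_al.Fr.R.P_fgA

/-!
# MP_305fdd_al, closed surface groups: Theorem R for vertex groups with the universal properties for
linear groups of degree `N`, unconditional
-/

set_option autoImplicit false

namespace Pool.Agent.SuUN

open Pool.Agent

/-- THEOREM R FOR VERTEX GROUPS, with targets of degree `N`. -/
theorem p_VN (N : ℕ) : S_VN N := s_vN N FrR.p_R FrR.p_fgA FrR.p_fgH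

end Pool.Agent.SuUN
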