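import Pool.Agent.Lib.MP_305fdd_al.Fr.V.Main
import Pool.Agent.Lib.MP_305fdd_al.Su.UN.Cover
import Pool.Agent.Lib.MP_305fdd_al.Su.UN.Am

/-!
# MP_305fdd_al, closed surface groups: Theorem R for vertex groups, with the universal properties for
linear groups of degree `N`
-/

set_option autoImplicit false
set_option linter.unusedSectionVars false

namespace Pool.Agent.SuUN

open Pool.Agent.FrN Pool.Agent.F2Ch Pool.Agent.FrS Pool.Agent.FrT Pool.Agent.FrV Matrix

section

variable {Γ K F ι : Type} [Group Γ] [Field K] [Field F] [Algebra (ZMod 2) K]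
    [Algebra (ZMod 2) F] [Algebra K F] {ρ : Γ →* SpecialLinearGroup (Fin 2) F}
    {P : Subgroup Γ} {T : P → K}

/-- THEOREM R FOR VERTEX GROUPS -/
theorem vg_outN {N : ℕ} [Finite ι] (hR : FrR.S_R) (hA : FrR.S_fgA) (hH : FrR.S_fgH)
    (h : VG P K F T (ρ.comp P.subtype)) {x : K → ℝ} (hx : SGV T x) (I : ι → Subgroup Γ)
    (hIP : ∀ i, I i ≤ P) (hIfg : ∀ i, (I i).FG) (hIcm : ∀ i, Cm (I i))
    (hI : ∀ i, ∀ c : P, (c : Γ) ∈ I i → 0 ≤ x (T c)) : OutN N ρ P I := by
  obtain ⟨L, _, _, _, r, S, V, hS, htr, hV, hinj, hSG⟩ := h.input hx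
  have hinst := h.fg
  let E : ι → Subgroup P := fun i => (I i).subgroupOf P
  have hEfg : ∀ i, (E i).FG := by
    intro i
    have h1 : Group.FG (I i) := (Group.fg_iff_subgroup_fg _).2 (hIfg i)
    have h2 : Group.FG ((I i).subgroupOf P) :=
      Group.fg_of_surjective (f := (Subgroup.subgroupOfEquivOfLe (hIP i)).symm.toMonoidHom)
        (Subgroup.subgroupOfEquivOfLe (hIP i)).symm.surjective
    exact (Group.fg_iff_subgroup_fg _).1 h2
  have hEcm : ∀ i, ∀ a ∈ E i, ∀ b ∈ E i, a * b = b * a := by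
    intro i a ha b hb
    exact Subtype.ext (hIcm i a ha b hb)
  obtain ⟨G, _, n, π₀, R₀, q, E', hπ₀, hker, hq, hrep, hE'fg, hE'cm, hE'map⟩ :=
    exists_coverN N P ι E hEfg hEcm
  let D1 : Set K := T '' {c | ∃ i, (c : Γ) ∈ I i}
  have hD1 : ∀ c ∈ IntermediateField.adjoin (ZMod 2) D1, x c = 0 := by
    refine hx.triv ?_ ?_
    · rintro _ ⟨c, -, rfl⟩
      exact T_mem T c
    · rintro _ ⟨c, ⟨i, hc⟩, rfl⟩
      exact Or.inr (hI i c hc)
  let k : Type := IntermediateField.adjoin (ZMod 2) D1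
  let fk : Field k := inferInstanceAs (Field (IntermediateField.adjoin (ZMod 2) D1))
  let emb : k →+* L := (algebraMap K L).comp
    (algebraMap (IntermediateField.adjoin (ZMod 2) D1) K)
  let algk : Algebra k L := emb.toAlgebra
  have halgk : ∀ c : IntermediateField.adjoin (ZMod 2) D1, algebraMap k L c = algebraMap K L c :=
    fun c => rfl
  have htop : IntermediateField.adjoin k (S : Set L) = ⊤ := adjoin_top hS
  have htriv : F2Ch.Triv k V.v := by
    intro c
    show V.v (algebraMap K L (c : IntermediateField.adjoin (ZMod 2) D1)) = 0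
    rw [hV]
    exact hD1 _ (Subtype.property (c : IntermediateField.adjoin (ZMod 2) D1))
  have hle : (r.comp q).range ≤ r.range := by
    rintro _ ⟨g, rfl⟩
    exact ⟨q g, rfl⟩
  have hneg : ∃ g : G, FrR.tr ((r.comp q) g) ≠ 0 ∧ V.v (FrR.tr ((r.comp q) g)) < 0 := by
    obtain ⟨g, hg⟩ := h.exists_neg hx
    obtain ⟨g', rfl⟩ := hq g
    refine ⟨g', ?_, ?_⟩
    · show FrR.tr (r (q g')) ≠ 0
      rw [htr, Ne, map_eq_zero]
      intro h0
      rw [h0, hx.isV.zero] at hg
      exact lt_irrefl _ hg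
    · show V.v (FrR.tr (r (q g'))) < 0
      rw [htr, hV]
      exact hg
  have hge : ∀ i, ∀ a ∈ E' i, V.Ge 0 (FrR.tr ((r.comp q) a)) := by
    intro i a ha
    right
    show 0 ≤ V.v (FrR.tr (r (q a)))
    rw [htr, hV]
    have h1 : q a ∈ E i := by
      rw [← hE'map i]
      exact ⟨a, ha, rfl⟩
    exact hI i (q a) h1
  obtain ⟨N1, hN, W, hNW, hNker, Vt, act, X, hact, u, v, hX, huv, hinv, hSC, hSCcm, hu, hv, hell,
    x', f, htriv', hequi, hfne, hmv⟩ := hR k L G ι (Fin n) π₀ R₀ hπ₀ hker S htop V htriv (r.comp q)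
      (hSG _ hle) hneg E' hE'fg hE'cm hge
  have hNq : N1 ≤ q.ker := by
    intro g hg
    have h1 : r (q g) = 1 := hNker hg
    rw [← map_one r] at h1
    exact hinj h1
  let qb : G ⧸ N1 →* P := QuotientGroup.lift N1 q hNq
  have hqb : ∀ g : G, qb (QuotientGroup.mk g) = q g := fun g => rfl
  let j : G ⧸ N1 →* Γ := P.subtype.comp qb
  have hjapp : ∀ g : G, j (QuotientGroup.mk g) = (q g : Γ) := fun g => rfl
  have hjr : j.range = P := by
    ext γ
    constructor
    · rintro ⟨g, rfl⟩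
      exact (qb g).2
    · intro hγ
      obtain ⟨g, hg⟩ := hq ⟨γ, hγ⟩
      exact ⟨QuotientGroup.mk g, by rw [hjapp, hg]⟩
  have hj : FacN N j := by
    intro Q _ hQ s y hy
    obtain ⟨g, rfl⟩ := QuotientGroup.mk_surjective y
    have h1 : q g = 1 := by
      rw [MonoidHom.mem_ker, hjapp] at hy
      exact Subtype.ext hy
    have h2 : g ∈ (s.comp (QuotientGroup.mk' N1)).ker := hrep Q hQ _ h1
    exact h2
  have hGfg : Group.FG G := Group.fg_of_surjective (f := π₀) hπ₀
  have hGN : Group.FG (G ⧸ N1) := inferInstance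
  -- commutativity of the edge group
  have hDcm : Cm ((SC (G ⧸ N1) u v).map j) := by
    rintro _ ⟨a, ha, rfl⟩ _ ⟨b, hb, rfl⟩
    obtain ⟨a, rfl⟩ := QuotientGroup.mk_surjective a
    obtain ⟨b, rfl⟩ := QuotientGroup.mk_surjective b
    have h1 : r (q a) * r (q b) = r (q b) * r (q a) := hSCcm a b ha hb
    rw [← map_mul r, ← map_mul r] at h1
    have h2 := hinj h1
    rw [hjapp, hjapp]
    exact congrArg Subtype.val h2
  have hDfg : ((SC (G ⧸ N1) u v).map j).FG := fg_map j hSC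
  -- elements of the edge group fix the images of the ends
  have hfix : ∀ g : G, (QuotientGroup.mk g : G ⧸ N1) ∈ SC (G ⧸ N1) u v →
      r (q g) • f u = f u ∧ r (q g) • f v = f v := by
    intro g hg
    have h1 := hequi g u
    have h2 := hequi g v
    rw [MulAction.mem_stabilizer_iff.1 hg.1] at h1
    rw [MulAction.mem_stabilizer_iff.1 hg.2] at h2
    exact ⟨h1.symm, h2.symm⟩
  rcases amalg_or_hnn hact (u := u) (v := v) with hno | ⟨t, ht⟩
  · left
    obtain ⟨fgA, fgB⟩ := fg_am hact hA hX hinv huv hno hSC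
    obtain ⟨⟨bu, hbu, hbu'⟩, bv, hbv, hbv'⟩ := hmv hno
    have hAm := isAmN hact j hj hX hinv huv hno
    rw [hjr] at hAm
    have hx'0 : ∀ c ∈ IntermediateField.adjoin (ZMod 2) D1, x'.v (algebraMap K L c) = 0 :=
      fun c hc => htriv' (⟨c, hc⟩ : IntermediateField.adjoin (ZMod 2) D1)
    refine ⟨(Sst (u := u) (v := v) hact u).map j, (Sst (u := u) (v := v) hact v).map j,
      (SC (G ⧸ N1) u v).map j, hAm, fg_map j fgA, fg_map j fgB, hDfg, hDcm, ?_, ?_, ?_, ?_, ?_⟩
    · intro hEq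
      have h1 : j bu ∈ (SC (G ⧸ N1) u v).map j := by
        rw [← hEq]
        exact ⟨bu, hbu, rfl⟩
      obtain ⟨c, hc, hcb⟩ := h1
      obtain ⟨c, rfl⟩ := QuotientGroup.mk_surjective c
      obtain ⟨bu, rfl⟩ := QuotientGroup.mk_surjective bu
      rw [hjapp, hjapp] at hcb
      apply hbu'
      rw [hequi]
      show r (q bu) • f v = f v
      rw [← Subtype.ext hcb]
      exact (hfix c hc).2
    · intro hEq
      have h1 : j bv ∈ (SC (G ⧸ N1) u v).map j := by
        rw [← hEq]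
        exact ⟨bv, hbv, rfl⟩
      obtain ⟨c, hc, hcb⟩ := h1
      obtain ⟨c, rfl⟩ := QuotientGroup.mk_surjective c
      obtain ⟨bv, rfl⟩ := QuotientGroup.mk_surjective bv
      rw [hjapp, hjapp] at hcb
      apply hbv'
      rw [hequi]
      show r (q bv) • f u = f u
      rw [← Subtype.ext hcb]
      exact (hfix c hc).1
    · intro i
      obtain ⟨p, hp⟩ := hell i
      obtain ⟨g, hg⟩ := stab_conj hact (u := u) (v := v) hX p
      refine ⟨j g, by rw [← hjr]; exact ⟨g, rfl⟩, ?_⟩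
      have hlift : ∀ c ∈ I i, ∃ a : G ⧸ N1, j a = c ∧ a • p = p := by
        intro c hc
        have h1 : (⟨c, hIP i hc⟩ : P) ∈ E i := hc
        rw [← hE'map i] at h1
        obtain ⟨a, ha, hac⟩ := h1
        exact ⟨QuotientGroup.mk a, by rw [hjapp, hac], hp a ha⟩
      rcases hg with hg | hg
      · left
        intro c hc
        obtain ⟨a, rfl, ha⟩ := hlift c hc
        rw [← map_inv, ← map_mul, ← map_mul]
        exact ⟨_, hg a ha, rfl⟩
      · right
        intro c hc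
        obtain ⟨a, rfl, ha⟩ := hlift c hc
        rw [← map_inv, ← map_mul, ← map_mul]
        exact ⟨_, hg a ha, rfl⟩
    · intro hD hcm
      obtain ⟨_, ⟨z, hz, rfl⟩, hz1⟩ := (Subgroup.bot_or_exists_ne_one _).resolve_left hD
      obtain ⟨z, rfl⟩ := QuotientGroup.mk_surjective z
      obtain ⟨bu, rfl⟩ := QuotientGroup.mk_surjective bu
      rw [hjapp] at hz1
      have hzA : j (QuotientGroup.mk z) ∈ (Sst (u := u) (v := v) hact u).map j :=
        ⟨_, SC_le_u hact hz, rfl⟩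
      have hbA : j (QuotientGroup.mk bu) ∈ (Sst (u := u) (v := v) hact u).map j :=
        ⟨_, hbu, rfl⟩
      have hc := hcm _ hzA _ hbA
      rw [hjapp, hjapp] at hc
      have hmove : r (q bu) • f v ≠ f v := fun h1 => hbu' ((hequi bu v).trans h1)
      rcases h.claim I hIP r htr x' hx'0 (q z) (q bu) (fun h1 => hz1 (congrArg Subtype.val h1))
        (Subtype.ext hc) hfne.symm (hfix z hz).2 (hfix z hz).1 hmove with h1 | h1
      · exact ⟨_, hzA, h1⟩
      · exact ⟨_, hbA, h1⟩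
    · intro hD hcm
      obtain ⟨_, ⟨z, hz, rfl⟩, hz1⟩ := (Subgroup.bot_or_exists_ne_one _).resolve_left hD
      obtain ⟨z, rfl⟩ := QuotientGroup.mk_surjective z
      obtain ⟨bv, rfl⟩ := QuotientGroup.mk_surjective bv
      rw [hjapp] at hz1
      have hzA : j (QuotientGroup.mk z) ∈ (Sst (u := u) (v := v) hact v).map j :=
        ⟨_, SC_le_v hact hz, rfl⟩
      have hbA : j (QuotientGroup.mk bv) ∈ (Sst (u := u) (v := v) hact v).map j :=
        ⟨_, hbv, rfl⟩
      have hc := hcm _ hzA _ hbA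
      rw [hjapp, hjapp] at hc
      have hmove : r (q bv) • f u ≠ f u := fun h1 => hbv' ((hequi bv u).trans h1)
      rcases h.claim I hIP r htr x' hx'0 (q z) (q bv) (fun h1 => hz1 (congrArg Subtype.val h1))
        (Subtype.ext hc) hfne (hfix z hz).1 (hfix z hz).2 hmove with h1 | h1
      · exact ⟨_, hzA, h1⟩
      · exact ⟨_, hbA, h1⟩
  · right
    have fgA := fg_hn hact hH hX hinv huv t ht hSC
    have hHn := isHnN hact j hj hX hinv huv t ht
    rw [hjr] at hHn
    refine ⟨(Sst (u := u) (v := v) hact u).map j, (SC (G ⧸ N1) u v).map j, j t, hHn, fg_map j fgA,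
      hDfg, hDcm, ?_⟩
    intro i
    obtain ⟨p, hp⟩ := hell i
    obtain ⟨g, hg⟩ := stab_conj hact (u := u) (v := v) hX p
    have hlift : ∀ c ∈ I i, ∃ a : G ⧸ N1, j a = c ∧ a • p = p := by
      intro c hc
      have h1 : (⟨c, hIP i hc⟩ : P) ∈ E i := hc
      rw [← hE'map i] at h1
      obtain ⟨a, ha, hac⟩ := h1
      exact ⟨QuotientGroup.mk a, by rw [hjapp, hac], hp a ha⟩
    rcases hg with hg | hg
    · refine ⟨j g, by rw [← hjr]; exact ⟨g, rfl⟩, ?_⟩
      intro c hc
      obtain ⟨a, rfl, ha⟩ := hlift c hc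
      rw [← map_inv, ← map_mul, ← map_mul]
      exact ⟨_, hg a ha, rfl⟩
    · refine ⟨j (g * t), by rw [← hjr]; exact ⟨g * t, rfl⟩, ?_⟩
      intro c hc
      obtain ⟨a, rfl, ha⟩ := hlift c hc
      rw [← map_inv, ← map_mul, ← map_mul]
      refine ⟨_, ?_, rfl⟩
      have h1 := conj_Sst hact ht (hg a ha)
      have h2 : (g * t)⁻¹ * a * (g * t) = t⁻¹ * (g⁻¹ * a * g) * t := by group
      rw [h2]
      exact h1

end

/-- THEOREM R FOR VERTEX GROUPS, from Theorem R. -/
theorem s_vN (N : ℕ) (hR : FrR.S_R) (hA : FrR.S_fgA) (hH : FrR.S_fgH) : S_VN N := by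
  intro Γ K F ι _ _ _ _ _ _ _ T ρ P I x htr hdiv hfg hnab hIP hIfg hIcm hx hle hne hI
  obtain ⟨K1, _, _, _, T1, x1, hVG, hSG, hx1⟩ := exists_vg T ρ P x htr hdiv hfg hnab hx hle hne
  exact vg_outN hR hA hH hVG hSG I hIP hIfg hIcm (fun i c hc => by rw [hx1]; exact hI i c hc)

end Pool.Agent.SuUN
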